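import Pool.Agent.W314.BA.Stm

/-!
# Commutation of the twisted averages (project BA)
-/

open MeasureTheory Set Filter Topology Real
open scoped ENNReal NNReal
open Pool.Agent.W314.BA

noncomputable section

namespace Pool.Agent.W721.BA.CM

lemma ee_add (a b : ℝ) : ee (a + b) = ee a * ee b := by
  unfold ee
  rw [← Complex.exp_add]
  congr 1
  push_cast
  ring

lemma norm_ee (t : ℝ) : ‖ee t‖ = 1 := by
  unfold ee
  have : 2 * (π : ℂ) * Complex.I * t = ((2 * π * t : ℝ) : ℂ) * Complex.I := by
    push_cast
    ring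
  rw [this, Complex.norm_exp_ofReal_mul_I]

lemma ee_cont : Continuous ee := by
  unfold ee
  fun_prop

theorem main (h : GCommStmt) : CommStmt := by
  intro Y _ _ μ c hS θ f hf x x' hx hx' y
  obtain ⟨hfm, C, hC⟩ := hf
  have hcy : Measurable (fun u : G => c u y) := hS.c_meas.comp measurable_prodMk_right
  have hsy : Measurable (fun u : G => u • y) := hS.smul_meas.comp measurable_prodMk_right
  obtain ⟨φ, hφd⟩ : ∃ φ : G → ℂ, φ = fun u => ee (θ * c u y) * f (u • y) := ⟨_, rfl⟩
  have hcast : Measurable (fun n : ℤ => ee (θ * n)) := measurable_from_top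
  have hφ : Measurable φ := by
    rw [hφd]
    exact (hcast.comp hcy).mul (hfm.comp hsy)
  have hφC : ∃ C : ℝ, ∀ g, ‖φ g‖ ≤ C := ⟨C, fun g => by
    rw [hφd]
    simp only
    rw [norm_mul, norm_ee, one_mul]
    exact hC _⟩
  have key : ∀ a b : ℝ, tw c θ (bm a) (tw c θ (bm b) f) y =
      ∫ g, ∫ h, φ (h * g) ∂(bm b) ∂(bm a) := by
    intro a b
    unfold tw
    refine integral_congr_ae (Filter.Eventually.of_forall fun g => ?_)
    simp only
    rw [← integral_const_mul]
    refine integral_congr_ae (Filter.Eventually.of_forall fun u => ?_)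
    simp only
    rw [hφd]
    simp only
    rw [hS.coc, mul_smul, Int.cast_add, mul_add, ee_add]
    ring
  rw [key, key]
  exact h x' x hx' hx φ hφ hφC

end Pool.Agent.W721.BA.CM
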