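import Pool.Agent.W314.BA.Stm

/-!
# Pointwise domination of ball averages on the product (project BA)
-/

open MeasureTheory Set Filter Topology Real
open scoped ENNReal NNReal
open Pool.Agent.W314.BA

noncomputable section

namespace Pool.Agent.W721.BA.DX

/-- comparison of the kernels -/
lemma kn_le (J : ℕ) (x : ℝ) (hx : 2 ≤ x) (n j : ℤ) (hj : |j| ≤ J) :
    kn (4 * x) (n - j) ≤ ENNReal.ofReal (7 + 4 * (J : ℝ) ^ 2) * kn x n := by
  unfold kn
  rw [← ENNReal.ofReal_mul (by positivity)]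
  apply ENNReal.ofReal_le_ofReal
  have hlog2 : (1 : ℝ) / 2 ≤ Real.log 2 := by
    have := Real.log_two_gt_d9
    linarith
  obtain ⟨L, hL⟩ : ∃ L : ℝ, L = Real.log x := ⟨_, rfl⟩
  obtain ⟨L', hL'⟩ : ∃ L' : ℝ, L' = Real.log (4 * x) := ⟨_, rfl⟩
  have hL2 : Real.log 2 ≤ L := by rw [hL]; exact Real.log_le_log (by norm_num) hx
  have hLL : L' = 2 * Real.log 2 + L := by
    rw [hL', hL, Real.log_mul (by norm_num) (by linarith)]
    congr 1
    rw [show (4 : ℝ) = 2 ^ 2 by norm_num, Real.log_pow]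
    norm_num
  rw [← hL, ← hL']
  have hL0 : 0 < L := by linarith
  have hL'0 : 0 < L' := by linarith
  have hL3 : L' ≤ 3 * L := by linarith
  have hLle : L ≤ L' := by linarith
  obtain ⟨p, hp⟩ : ∃ p : ℝ, p = ((n - j : ℤ) : ℝ) := ⟨_, rfl⟩
  have hn : (n : ℝ) = p + j := by rw [hp]; push_cast; ring
  rw [← hp]
  have hj2 : (j : ℝ) ^ 2 ≤ (J : ℝ) ^ 2 := by
    have h1 : |(j : ℝ)| ≤ J := by exact_mod_cast hj
    exact sq_le_sq' (by linarith [neg_abs_le (j : ℝ)]) (by linarith [le_abs_self (j : ℝ)])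
  have hn2 : (n : ℝ) ^ 2 ≤ 2 * p ^ 2 + 2 * (J : ℝ) ^ 2 := by
    rw [hn]
    nlinarith [sq_nonneg (p - j)]
  have h1 : (n : ℝ) ^ 2 / L ≤ 6 * (p ^ 2 / L') + 4 * (J : ℝ) ^ 2 := by
    have h2 : p ^ 2 / L ≤ 3 * (p ^ 2 / L') := by
      rw [← mul_div_assoc, div_le_div_iff₀ hL0 hL'0]
      nlinarith [sq_nonneg p]
    have h3 : (J : ℝ) ^ 2 / L ≤ 2 * (J : ℝ) ^ 2 := by
      rw [div_le_iff₀ hL0]
      nlinarith [sq_nonneg (J : ℝ)]
    calc (n : ℝ) ^ 2 / L ≤ (2 * p ^ 2 + 2 * (J : ℝ) ^ 2) / L :=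
          div_le_div_of_nonneg_right hn2 hL0.le
      _ = 2 * (p ^ 2 / L) + 2 * ((J : ℝ) ^ 2 / L) := by ring
      _ ≤ _ := by linarith
  have h4 : √L ≤ √L' := Real.sqrt_le_sqrt hLle
  have h5 : 0 < √L := Real.sqrt_pos.2 hL0
  have h6 : 0 < √L' := Real.sqrt_pos.2 hL'0
  have h7 : 0 ≤ p ^ 2 / L' := by positivity
  have h8 : 0 ≤ (n : ℝ) ^ 2 / L := by positivity
  have h9 : √L * (1 + (n : ℝ) ^ 2 / L) ≤
      (7 + 4 * (J : ℝ) ^ 2) * (√L' * (1 + p ^ 2 / L')) := by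
    calc √L * (1 + (n : ℝ) ^ 2 / L) ≤ √L' * (1 + (n : ℝ) ^ 2 / L) :=
          mul_le_mul_of_nonneg_right h4 (by positivity)
      _ ≤ √L' * ((7 + 4 * (J : ℝ) ^ 2) * (1 + p ^ 2 / L')) := by
          apply mul_le_mul_of_nonneg_left _ h6.le
          nlinarith [mul_nonneg (sq_nonneg (J : ℝ)) h7]
      _ = _ := by ring
  rw [← one_div, ← one_div, mul_one_div, div_le_div_iff₀ (by positivity) (by positivity), one_mul]
  exact h9

section
variable {Y : Type} [MeasurableSpace Y] [MulAction G Y] {μ : Measure Y} {c : G → Y → ℤ}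

/-- the inner average -/
lemma inner (hS : Sys μ c) {C1 : ℝ≥0∞}
    (hC1 : ∀ y : Y, (hm.restrict (Bx 2)).map (fun g => g • y) ≤ C1 • μ) {J : ℕ}
    (hJ : ∀ g ∈ Bx 2, ∀ y, |c g y| ≤ J) (α : T) (f : Y × T → ℝ≥0∞) (hf : Measurable f) (y : Y)
    (w : T) : ∫⁻ u, f (u • y, w + c u y • α) ∂(bm 2) ≤
      C1 * ∑ j ∈ Finset.Icc (-(J : ℤ)) J, ∫⁻ y', f (y', w + j • α) ∂μ := by
  have hsy : Measurable (fun u : G => u • y) := hS.smul_meas.comp measurable_prodMk_right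
  have hfw : ∀ w : T, Measurable (fun y' : Y => f (y', w)) := fun w =>
    hf.comp measurable_prodMk_right
  have e1 : bm 2 = hm.restrict (Bx 2) := by
    unfold bm
    norm_num
  rw [e1]
  calc ∫⁻ u in Bx 2, f (u • y, w + c u y • α) ∂hm
      ≤ ∫⁻ u in Bx 2, ∑ j ∈ Finset.Icc (-(J : ℤ)) J, f (u • y, w + j • α) ∂hm := by
        refine setLIntegral_mono' (Bx_meas 2) fun u hu => ?_
        have h1 := hJ u hu y
        rw [abs_le] at h1
        exact Finset.single_le_sum (f := fun j : ℤ => f (u • y, w + j • α))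
          (fun _ _ => zero_le) (Finset.mem_Icc.2 h1)
    _ = ∑ j ∈ Finset.Icc (-(J : ℤ)) J, ∫⁻ u in Bx 2, f (u • y, w + j • α) ∂hm :=
        lintegral_finsetSum _ fun j _ => (hfw _).comp hsy
    _ ≤ ∑ j ∈ Finset.Icc (-(J : ℤ)) J, C1 * ∫⁻ y', f (y', w + j • α) ∂μ := by
        refine Finset.sum_le_sum fun j _ => ?_
        have h2 : ∫⁻ u in Bx 2, f (u • y, w + j • α) ∂hm =
            ∫⁻ y', f (y', w + j • α) ∂((hm.restrict (Bx 2)).map (fun g => g • y)) :=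
          (lintegral_map (hfw _) hsy).symm
        rw [h2]
        refine (lintegral_mono' (hC1 y) le_rfl).trans ?_
        rw [lintegral_smul_measure, smul_eq_mul]
    _ = _ := by rw [Finset.mul_sum]

/-- the outer average -/
lemma outer (hS : Sys μ c) {C2 : ℝ≥0∞} {x : ℝ} (hC2 : ∀ n : ℤ, Sn c x n ≤ C2 * kn x n) (y : Y)
    (Φ : ℤ → ℝ≥0∞) : ∫⁻ g, Φ (c g y) ∂(bm x) ≤ C2 * ∑' n : ℤ, kn x n * Φ n := by
  have hcy : Measurable (fun u : G => c u y) := hS.c_meas.comp measurable_prodMk_right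
  have h1 : ∫⁻ g, Φ (c g y) ∂(bm x) = ∫⁻ n, Φ n ∂((bm x).map (fun g => c g y)) :=
    (lintegral_map measurable_from_top hcy).symm
  rw [h1, lintegral_countable', ← ENNReal.tsum_mul_left]
  refine ENNReal.tsum_le_tsum fun n => ?_
  rw [Measure.map_apply hcy (measurableSet_singleton n)]
  have h2 : (bm x) ((fun g => c g y) ⁻¹' {n}) ≤ C2 * kn x n := by
    refine le_trans ?_ (hC2 n)
    unfold Sn
    exact le_iSup (fun y : Y => bm x {g | c g y = n}) y
  calc Φ n * (bm x) ((fun g => c g y) ⁻¹' {n}) ≤ Φ n * (C2 * kn x n) := by gcongr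
    _ = C2 * (kn x n * Φ n) := by ring

end

theorem main (h1 : TailStmt) (h2 : DomLStmt) : DomXStmt := by
  intro Y _ _ μ c hS
  obtain ⟨C2, hC2t, hC2⟩ := h1 Y μ c hS
  obtain ⟨CL, hCLt, hCL⟩ := h2
  obtain ⟨C1, hC1t, hC1⟩ := hS.dens
  obtain ⟨J0, hJ0⟩ := hS.bdd 2
  obtain ⟨J, hJd⟩ : ∃ J : ℕ, J = J0.toNat := ⟨_, rfl⟩
  have hJ : ∀ g ∈ Bx 2, ∀ y, |c g y| ≤ J := by
    intro g hg y
    have h3 := hJ0 g hg y
    rw [hJd]
    exact h3.trans (Int.self_le_toNat _)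
  obtain ⟨D, hD⟩ : ∃ D : ℝ≥0∞, D = CL * (C1 * ((2 * J + 1 : ℕ) * (C2 *
      ENNReal.ofReal (7 + 4 * (J : ℝ) ^ 2)))) := ⟨_, rfl⟩
  refine ⟨D, ?_, ?_⟩
  · rw [hD]
    refine ENNReal.mul_ne_top hCLt (ENNReal.mul_ne_top hC1t (ENNReal.mul_ne_top ?_
      (ENNReal.mul_ne_top hC2t ENNReal.ofReal_ne_top)))
    exact ENNReal.natCast_ne_top _
  intro α f hf x hx y z
  have hcy : Measurable (fun u : G => c u y) := hS.c_meas.comp measurable_prodMk_right
  have hsy : Measurable (fun u : G => u • y) := hS.smul_meas.comp measurable_prodMk_right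
  have hcz : Measurable (fun n : ℤ => z + n • α) := measurable_from_top
  have hφ : Measurable (fun g : G => f (g • y, z + c g y • α)) :=
    hf.comp (hsy.prodMk (hcz.comp hcy))
  refine (hCL x hx _ hφ).trans ?_
  rw [hD, mul_assoc CL]
  gcongr
  -- the inner average
  have h3 : ∀ g : G, ∫⁻ u, f ((u * g) • y, z + c (u * g) y • α) ∂(bm 2) ≤
      C1 * ∑ j ∈ Finset.Icc (-(J : ℤ)) J, ∫⁻ y', f (y', z + (c g y + j) • α) ∂μ := by
    intro g
    have h4 := inner hS hC1 hJ α f hf (g • y) (z + c g y • α)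
    have e1 : (fun u : G => f ((u * g) • y, z + c (u * g) y • α)) =
        fun u : G => f (u • g • y, z + c g y • α + c u (g • y) • α) := by
      funext u
      rw [hS.coc, mul_smul, add_smul, add_comm (c u (g • y) • α), add_assoc]
    rw [e1]
    refine h4.trans (le_of_eq ?_)
    congr 1
    refine Finset.sum_congr rfl fun j _ => ?_
    refine lintegral_congr fun y' => ?_
    rw [add_smul, add_assoc]
  refine (lintegral_mono h3).trans ?_
  have hm1 : ∀ j : ℤ, Measurable (fun g : G => ∫⁻ y', f (y', z + (c g y + j) • α) ∂μ) := by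
    intro j
    exact (measurable_from_top (f := fun n : ℤ => ∫⁻ y', f (y', z + (n + j) • α) ∂μ)).comp hcy
  rw [lintegral_const_mul _ (Finset.measurable_sum _ fun j _ => hm1 j),
    lintegral_finsetSum _ fun j _ => hm1 j, mul_assoc C1]
  gcongr
  calc ∑ j ∈ Finset.Icc (-(J : ℤ)) J, ∫⁻ g, ∫⁻ y', f (y', z + (c g y + j) • α) ∂μ ∂(bm (4 * x))
      ≤ ∑ j ∈ Finset.Icc (-(J : ℤ)) J, (C2 * ENNReal.ofReal (7 + 4 * (J : ℝ) ^ 2)) *
          ∑' n : ℤ, kn x n * ∫⁻ y', f (y', z + n • α) ∂μ := by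
        refine Finset.sum_le_sum fun j hj => ?_
        have hj' : |j| ≤ J := by
          rw [abs_le]
          exact Finset.mem_Icc.1 hj
        have h5 := outer (x := 4 * x) hS (hC2 (4 * x) (by linarith)) y
          (fun n => ∫⁻ y', f (y', z + (n + j) • α) ∂μ)
        refine h5.trans ?_
        rw [mul_assoc]
        gcongr
        have h6 : ∑' n : ℤ, kn (4 * x) n * ∫⁻ y', f (y', z + (n + j) • α) ∂μ =
            ∑' n : ℤ, kn (4 * x) (n - j) * ∫⁻ y', f (y', z + n • α) ∂μ := by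
          rw [← (Equiv.addRight j).tsum_eq
            (fun n : ℤ => kn (4 * x) (n - j) * ∫⁻ y', f (y', z + n • α) ∂μ)]
          refine tsum_congr fun n => ?_
          simp only [Equiv.coe_addRight, add_sub_cancel_right]
        rw [h6, ← ENNReal.tsum_mul_left]
        refine ENNReal.tsum_le_tsum fun n => ?_
        rw [← mul_assoc]
        gcongr
        exact kn_le J x hx n j hj'
    _ = _ := by
        rw [Finset.sum_const, Int.card_Icc, nsmul_eq_mul]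
        have e2 : ((J : ℤ) + 1 - -(J : ℤ)).toNat = 2 * J + 1 := by omega
        rw [e2]
        ring

end Pool.Agent.W721.BA.DX
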